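import Pool.Agent.MC43.Main

/-!
# MP_a43719_gt: two sheets joined by necks of small parabolic content do not collapse

Let two disjoint sheets in `ℝ^(n+1)`, the graphs of `g₂ < g₁`, move by mean curvature for `t₀ < t < T` over
the disc of radius `R √(T - t)` and centre `√(T - t) c` without a family of holes in space-time. Hole number
`i` is the parabolic cylinder of the points `(x, t)` with `|x - b_i| < ρ_i √(T - s_i)` and
`|t - s_i| < ρ_i² (T - s_i)`. There may be infinitely many holes, and their rescaled radii `ρ_i` may tend to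
zero. Let `0 < q < n`. If the sum of the `ρ_i^q` over the holes with times in `[T - 2σ, T - σ]` is at most
`ε(n, q, R)` for all `σ > 0`, and the slopes are small, then on half of the ball of radius
`r₀ √(T - t)` the distance of the sheets is at least `η (T - t)^(1/2 - β)` for all `t` close to `T`, where
`β > 0` depends only on `n, q, R`. In particular the distance is not `O(√(T - t))`.
-/

set_option autoImplicit false

open Filter Topology Set MeasureTheory Metric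

namespace Pool.Agent.Results.MP_a43719_gt.SpaceTimeNecks

open MC87 MC43

theorem result (n : ℕ) (hn : 1 ≤ n) (q R c₀ : ℝ) (hq : 0 < q) (hqn : q < n) (hR : 0 < R)
    (hc₀ : 0 ≤ c₀) (hRc : c₀ ^ 2 + 4 * n < R ^ 2) :
    ∃ ε θ β : ℝ, 0 < ε ∧ 0 < θ ∧ 0 < β ∧ ∀ (t₀ T : ℝ) (ι : Type) (c : Eu n) (b : ι → Eu n)
      (s ρ : ι → ℝ) (g₁ g₂ : Eu n × ℝ → ℝ), t₀ < T → ‖c‖ ≤ c₀ → HolesSmall q ε T s ρ →
      SheetPair θ t₀ T (holedDisc R T c b s ρ) g₁ g₂ →
      (∃ η t₁ : ℝ, 0 < η ∧ t₁ < T ∧ ∀ t, t₁ ≤ t → t < T →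
        1 / 2 * volume.real (ball (0 : Eu n) (1 / (1 + 2 * c₀))) ≤
          volume.real {y : Eu n | ‖y‖ < 1 / (1 + 2 * c₀) ∧
            √(T - t) • y ∈ holedDisc R T c b s ρ t ∧
            η * (T - t) ^ (1 / 2 - β) ≤ g₁ (√(T - t) • y, t) - g₂ (√(T - t) • y, t)}) ∧
      ∀ M : ℝ, ∃ t' : ℝ, t' < T ∧ ∀ t, t' < t → t < T → ∃ x ∈ holedDisc R T c b s ρ t,
        ‖x‖ ≤ √(T - t) ∧ M * √(T - t) < g₁ (x, t) - g₂ (x, t) := by
  obtain ⟨ε, θ, β, hε, hθ, hβ, h⟩ := sheets_apart hn hq hqn hR hc₀ hRc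
  refine ⟨ε, θ, β, hε, hθ, hβ, ?_⟩
  intro t₀ T ι c b s ρ g₁ g₂ ht₀T hc hH hp
  obtain ⟨η, hη, t₁, -, ht₁T, hsep⟩ := h t₀ T ι c b s ρ g₁ g₂ ht₀T hc hH hp
  refine ⟨⟨η, t₁, hη, ht₁T, hsep⟩, fun M => ?_⟩
  have hr₀ : 0 < 1 / (1 + 2 * c₀) := by positivity
  have hr₁ : 1 / (1 + 2 * c₀) ≤ 1 := by
    rw [div_le_one (by positivity)]
    linarith
  obtain ⟨t', ht', h2⟩ := unbounded_of_apart (Ω := holedDisc R T c b s ρ) hr₀ hβ hη ht₁T hsep M
  refine ⟨t', ht', fun t h3 h4 => ?_⟩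
  obtain ⟨x, hx, hx1, hx2⟩ := h2 t h3 h4
  exact ⟨x, hx, hx1.trans (mul_le_of_le_one_left (Real.sqrt_nonneg _) hr₁), hx2⟩

end Pool.Agent.Results.MP_a43719_gt.SpaceTimeNecks
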